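import Pool.Agent.H78.XQ.Targets
import Pool.Agent.H70.EI.AST
import Pool.Agent.H48.EH.RIN
import Pool.Agent.H17.EH.CHE

/-! RIX: a formula does not see the copies (board xq_modules, MP_0f8dca_lc). -/

set_option autoImplicit false

namespace Pool.Agent.H3.XQ

open Finset Pool.Agent.H78.XQ Pool.Agent.H6.NB Pool.Agent.H70.OQ Pool.Agent.H70.EH
  Pool.Agent.H70.EI

theorem sayX_true {U : Type} [Fintype U] (q l : ℕ) (P : U → VV q → Bool) :
    SayX q l true P ↔ Says q true P := by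
  unfold SayX Says
  simp

open Classical in
/-- failure probability for the answer `false` -/
theorem chx_false (h1 : T_CHA) (h3 : T_MUV) (h4 : T_PHB) (h5 : T_PHU) (q l : ℕ)
    (hq : q = 10 * l + 100) :
    ∑ P : (Fin (2 * l) → Bool) → VV q → Bool, (∏ u, mv false q (P u)) *
      (if SayX q l false P then 0 else 1) ≤ Real.exp (-(2 ^ (2 * l) * (1 / 2 ^ l) / 2)) := by
  have hg : ∀ p : VV q → Bool, 0 ≤ phi q p ^ 2 ∧ phi q p ^ 2 ≤ 1 := fun p =>
    ⟨sq_nonneg _, (sq_le_one_iff_abs_le_one _).2 (h4 q p)⟩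
  obtain ⟨hm0, hm1, -⟩ := h3 false q
  have hcard : (Fintype.card (Fin (2 * l) → Bool) : ℝ) = 2 ^ (2 * l) := by
    rw [Fintype.card_fun, Fintype.card_bool, Fintype.card_fin]; push_cast; ring
  obtain ⟨hA, -⟩ := h1 (Fin (2 * l) → Bool) (VV q → Bool) (mv false q) (fun p => phi q p ^ 2)
    (1 / 2 ^ l) hm0 hm1 hg (by positivity)
  have hmean : ∑ p, mv false q p * phi q p ^ 2 ≤ 1 / 2 ^ l / 4 := by
    have e1 : ∑ p, mv false q p * phi q p ^ 2 = 1 / 2 ^ q := h5 q
    rw [e1, div_div]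
    apply one_div_le_one_div_of_le (by positivity)
    have e2 : (2 : ℝ) ^ l * 4 = 2 ^ (l + 2) := by rw [pow_add]; norm_num
    rw [e2]
    exact pow_le_pow_right₀ (by norm_num) (by omega)
  have h := hA hmean
  rw [hcard] at h
  refine le_trans (le_of_eq (sum_congr rfl fun P _ => ?_)) h
  congr 1
  have e5 : SayX q l false P ↔ (∑ u, phi q (P u) ^ 2) / ((2 : ℝ) ^ (2 * l)) ≤ 1 / 2 ^ l := by
    unfold SayX avg
    rw [hcard]
    simp
  by_cases hs : SayX q l false P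
  · rw [if_pos hs, if_pos (e5.1 hs)]
  · rw [if_neg hs, if_neg fun h => hs (e5.2 h)]

theorem rix (hRDI : T_RDI) (hRCP : T_RCP) (hCHA : T_CHA) (hPHV : T_PHV) (hMUV : T_MUV)
    (hPHB : T_PHB) (hPHU : T_PHU) (hRL2 : T_RL2) (hCLR : T_CLR) (hNU2 : T_NU2)
    (hNUX : Pool.Agent.H78.XQ.T_NUX) : T_RIX := by
  classical
  intro r l q R n hS b B hB
  obtain ⟨hn1, hn2, -, -⟩ := hNUX r l q R n hS
  have hnum := hNU2 r l hS.r_ge hS.l_ge hS.l_le
  have hZ : 0 ≤ ∑ P : (Fin (2 * l) → Bool) → VV q → Bool, (∏ u, mv false q (P u)) * bi (B P) :=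
    Finset.sum_nonneg fun P _ => mul_nonneg
      (Finset.prod_nonneg fun u _ => (hMUV false q).1 (P u)) (by unfold bi; split_ifs <;> norm_num)
  have hr0 : (0 : ℝ) < (1 / 8) ^ r := by positivity
  have h22 : (0 : ℝ) < 2 ^ 2 ^ r := by positivity
  have hsplit : (1 / 8 : ℝ) ^ r / (8 * 2 ^ 2 ^ r) = (1 / 8) ^ r / 8 / 2 ^ 2 ^ r := by
    rw [div_div]
  cases b with
  | false =>
    have h1 := chx_false hCHA hMUV hPHB hPHU q l hS.q_eq
    have h2 : Real.exp (-(2 ^ (2 * l) * (1 / 2 ^ l) / 2)) ≤ (1 / 8) ^ r / (8 * 2 ^ 2 ^ r) := by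
      rw [hsplit, le_div_iff₀ h22]
      linarith
    have h3 : ∑ P : (Fin (2 * l) → Bool) → VV q → Bool, (∏ u, mv false q (P u)) * bi (B P) -
        ∑ P, (if SayX q l false P then ∏ u, mv false q (P u) else 0) * bi (B P) ≤
        ∑ P : (Fin (2 * l) → Bool) → VV q → Bool, (∏ u, mv false q (P u)) *
          (if SayX q l false P then 0 else 1) := by
      rw [← Finset.sum_sub_distrib]
      refine Finset.sum_le_sum fun P _ => ?_
      have hnn : 0 ≤ ∏ u, mv false q (P u) :=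
        Finset.prod_nonneg fun u _ => (hMUV false q).1 (P u)
      by_cases h : SayX q l false P
      · simp [h]
      · simp only [h, if_false, zero_mul, sub_zero, mul_one]
        have hb : bi (B P) ≤ 1 := by unfold bi; split_ifs <;> norm_num
        have := mul_le_mul_of_nonneg_left hb hnn
        linarith
    have h4 : (1 - (1 / 8 : ℝ) ^ r / 8) *
        ∑ P : (Fin (2 * l) → Bool) → VV q → Bool, (∏ u, mv false q (P u)) * bi (B P) ≤
        ∑ P : (Fin (2 * l) → Bool) → VV q → Bool, (∏ u, mv false q (P u)) * bi (B P) :=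
      mul_le_of_le_one_left hZ (by linarith)
    linarith
  | true =>
    have hcore := ast_core (Pool.Agent.H48.EH.rin hRDI hRCP
      (Pool.Agent.H17.EH.che hCHA hPHV hMUV hPHB hPHU) hMUV) hRL2 hNU2 hCLR r l q hS.q_eq hS.r_ge
      hS.l_ge hS.l_le true B hB
    obtain ⟨-, h2, h3⟩ := hnum
    rw [← hS.q_eq] at h2 h3
    have h4 : (2 : ℝ) ^ (2 * l) * (Pool.Agent.H70.EI.Lam r / √(2 ^ q)) ≤ (1 / 8 : ℝ) ^ r / 8 := by
      refine h2.trans ?_
      linarith
    have h5 : (2 : ℝ) ^ (2 * l) * (Pool.Agent.H70.EI.Tau r q + 1 / 2 ^ 2 ^ (q - 2)) +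
        Real.exp (-((2 : ℝ) ^ (2 * l) * eps2 q ^ 2 / 64)) ≤ (1 / 8) ^ r / (8 * 2 ^ 2 ^ r) := by
      rw [hsplit, le_div_iff₀ h22]
      linarith
    have h6 : (1 - (1 / 8 : ℝ) ^ r / 8) *
        ∑ P : (Fin (2 * l) → Bool) → VV q → Bool, (∏ u, mv false q (P u)) * bi (B P) ≤
        (1 - 2 ^ (2 * l) * (Pool.Agent.H70.EI.Lam r / √(2 ^ q))) *
        ∑ P : (Fin (2 * l) → Bool) → VV q → Bool, (∏ u, mv false q (P u)) * bi (B P) :=
      mul_le_mul_of_nonneg_right (by linarith) hZ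
    refine le_trans (sub_le_sub h6 h5) (le_trans hcore (le_of_eq ?_))
    refine Finset.sum_congr rfl fun P _ => ?_
    by_cases h : Says q true P
    · rw [if_pos h, if_pos ((sayX_true q l P).2 h)]
      rfl
    · rw [if_neg h, if_neg fun h' => h ((sayX_true q l P).1 h')]
      rfl

end Pool.Agent.H3.XQ
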