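import Pool.Agent.H78.XQ.Targets

/-! HWX: a formula does not see the correction string (board xq_modules, MP_0f8dca_lc). -/

set_option autoImplicit false

namespace Pool.Agent.H3.XQ

open Pool.Agent.H78.XQ Pool.Agent.H6.NB Pool.Agent.H70.OQ Pool.Agent.H70.EH Pool.Agent.H70.EI

/-- the average is between `0` and `1` -/
theorem avg_mem (hITG : T_ITG) (l q : ℕ) (P : (Fin (2 * l) → Bool) → VV q → Bool) :
    0 ≤ avg q P ∧ avg q P ≤ 1 := by
  obtain ⟨K, hK, hk⟩ := hITG l q 1 P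
  unfold Pool.Agent.H78.XQ.kap at hk
  rw [pow_one] at hk
  have h0 : (0 : ℝ) < 2 ^ (1 * (2 * l + 3 * q)) := by positivity
  have h1 : (K : ℝ) / 2 ^ (1 * (2 * l + 3 * q)) ≤ 1 := by
    rw [div_le_one h0]
    exact_mod_cast hK
  have h2 : (0 : ℝ) ≤ (K : ℝ) / 2 ^ (1 * (2 * l + 3 * q)) := by positivity
  constructor <;> linarith

theorem hwx (hHWT : T_HWT) (hITG : T_ITG) (hNUX : T_NUX) : T_HWX := by
  intro r l q R n hS b P hP
  obtain ⟨-, -, h3, h4⟩ := hNUX r l q R n hS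
  obtain ⟨ha0, ha1⟩ := avg_mem hITG l q P
  obtain ⟨K, hK, hk⟩ := hITG l q R P
  rw [← hS.n_eq] at hK hk
  have hr := hS.r_ge
  have hl1 : 1 ≤ l := by
    have h := hS.l_ge
    have h' : 1 ≤ r ^ 3 := Nat.one_le_pow _ _ (by omega)
    omega
  have hq1 : 1 ≤ q := by rw [hS.q_eq]; omega
  have hR1 : 1 ≤ R := by
    rw [hS.R_eq]
    have : 1 ≤ (q + 3) ^ 2 := Nat.one_le_pow _ _ (by omega)
    nlinarith
  have hn1 : 1 ≤ n := by
    rw [hS.n_eq]
    have : 1 ≤ 2 * l + 3 * q := by omega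
    nlinarith
  have hn0 : (0 : ℝ) < 2 ^ n := by positivity
  have hR1' : (1 : ℝ) ≤ R := by exact_mod_cast hR1
  have hl0 : (0 : ℝ) < 2 ^ l := by positivity
  set δ : ℝ := R / 2 ^ l with hδ
  have hδ0 : 0 ≤ δ := by positivity
  have hw1 : 1 ≤ 4 ^ r ^ 2 := Nat.one_le_pow _ _ (by norm_num)
  have hw1' : (1 : ℝ) ≤ ((4 ^ r ^ 2 : ℕ) : ℝ) := by exact_mod_cast hw1
  -- `δ ≤ 1 / 12`
  have hδ2 : δ ≤ 1 / 2 := by
    have e1 : (1 / 8 : ℝ) ^ r / 8 ≤ 1 := by
      have : (1 / 8 : ℝ) ^ r ≤ 1 := pow_le_one₀ (by norm_num) (by norm_num)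
      linarith
    have e2 : (1 : ℝ) ≤ (128 * ((4 ^ r ^ 2 : ℕ) : ℝ)) ^ (r + 1 + 1) := by
      apply one_le_pow₀
      linarith
    have e3 : 12 * δ ≤ 12 * ((4 ^ r ^ 2 : ℕ) : ℝ) * δ + 4 * ((4 ^ r ^ 2 : ℕ) : ℝ) ^ 2 / 2 ^ n := by
      have e4 : 12 * δ ≤ 12 * ((4 ^ r ^ 2 : ℕ) : ℝ) * δ := by
        have : 12 * δ ≤ (12 * δ) * ((4 ^ r ^ 2 : ℕ) : ℝ) := le_mul_of_one_le_right (by positivity) hw1'
        linarith
      have e5 : (0 : ℝ) ≤ 4 * ((4 ^ r ^ 2 : ℕ) : ℝ) ^ 2 / 2 ^ n := by positivity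
      linarith
    have e6 : 12 * δ ≤ 1 := by
      refine le_trans ?_ (h3.trans e1)
      refine e3.trans ?_
      exact le_mul_of_one_le_right (by positivity) e2
    linarith
  -- the estimate of `kap`
  have hkap : (b = true → kap q R P ≤ δ) ∧ (b = false → 1 - kap q R P ≤ δ) := by
    constructor
    · intro hb
      have h5 := hP.2 hb
      have h6 : kap q R P ≤ Real.exp (-(R * avg q P)) := by
        unfold Pool.Agent.H78.XQ.kap
        have h7 : 1 - avg q P ≤ Real.exp (-avg q P) := Real.one_sub_le_exp_neg _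
        calc (1 - avg q P) ^ R ≤ (Real.exp (-avg q P)) ^ R := pow_le_pow_left₀ (by linarith) h7 R
          _ = Real.exp (-(R * avg q P)) := by
            rw [← Real.exp_nat_mul]
            congr 1
            ring
      have h8 : (l : ℝ) ≤ R * avg q P := by
        have h9 : (l : ℝ) = R * (eps2 q ^ 2 / 8) := by
          rw [hS.R_eq]
          unfold eps2
          push_cast
          have h10 : (q : ℝ) + 3 ≠ 0 := by positivity
          field_simp
          norm_num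
        rw [h9]
        exact mul_le_mul_of_nonneg_left h5 (by linarith)
      have h11 : Real.exp (-(R * avg q P)) ≤ 1 / 2 ^ l := by
        have h12 : Real.exp (-(R * avg q P)) ≤ Real.exp (-(l : ℝ)) := Real.exp_le_exp.2 (by linarith)
        refine h12.trans ?_
        have h13 : Real.exp (-(l : ℝ)) = (Real.exp (-1)) ^ l := by
          rw [← Real.exp_nat_mul]
          congr 1
          ring
        rw [h13, ← one_div_pow]
        apply pow_le_pow_left₀ (Real.exp_pos _).le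
        rw [Real.exp_neg, ← one_div]
        apply one_div_le_one_div_of_le (by norm_num)
        have := Real.add_one_le_exp (1 : ℝ)
        linarith
      have h14 : 1 / (2 : ℝ) ^ l ≤ δ := div_le_div_of_nonneg_right hR1' hl0.le
      linarith
    · intro hb
      have h5 := hP.1 hb
      unfold Pool.Agent.H78.XQ.kap
      have h6 := one_add_mul_le_pow (a := -avg q P) (by linarith) R
      have h7 : R * avg q P ≤ δ := by
        rw [hδ]
        calc R * avg q P ≤ R * (1 / 2 ^ l) := mul_le_mul_of_nonneg_left h5 (by linarith)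
          _ = R / 2 ^ l := by ring
      have h8 : (1 + -avg q P) ^ R = (1 - avg q P) ^ R := by rw [← sub_eq_add_neg]
      rw [h8] at h6
      linarith
  -- the weight
  obtain ⟨W, hW1, hW2, hW3⟩ : ∃ W : ℕ, (W : ℝ) / 2 ^ n = (if b then 1 / 2 else 3 / 2) - kap q R P ∧
      W ≤ 2 ^ n ∧ |(W : ℝ) - 2 ^ n / 2| ≤ δ * 2 ^ n := by
    obtain ⟨m, rfl⟩ : ∃ m, n = m + 1 := ⟨n - 1, by omega⟩
    have hm : (2 : ℝ) ^ (m + 1) / 2 = 2 ^ m := by rw [pow_succ]; ring
    have hKk : (K : ℝ) = kap q R P * 2 ^ (m + 1) := by rw [hk]; field_simp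
    cases b with
    | true =>
      have h5 := hkap.1 rfl
      have h6 : K ≤ 2 ^ m := by
        have h7 : (K : ℝ) ≤ 2 ^ m := by
          rw [hKk, ← hm]
          have h8 : kap q R P ≤ 1 / 2 := h5.trans hδ2
          nlinarith
        exact_mod_cast h7
      have h7 : ((2 ^ m - K : ℕ) : ℝ) = 2 ^ m - K := by
        rw [Nat.cast_sub h6]; push_cast; ring
      refine ⟨2 ^ m - K, ?_, ?_, ?_⟩
      · rw [h7, hKk]
        simp only [if_true]
        rw [pow_succ]
        field_simp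
      · have h8 : 2 ^ m ≤ 2 ^ (m + 1) := Nat.pow_le_pow_right (by norm_num) (by omega)
        omega
      · rw [h7, hm]
        have h9 : (2 : ℝ) ^ m - K - 2 ^ m = -K := by ring
        rw [h9, abs_neg, abs_of_nonneg (by positivity), hKk]
        exact mul_le_mul_of_nonneg_right h5 hn0.le
    | false =>
      have h5 := hkap.2 rfl
      have h7 : ((2 ^ m + (2 ^ (m + 1) - K) : ℕ) : ℝ) = 2 ^ m + (2 ^ (m + 1) - K) := by
        rw [Nat.cast_add, Nat.cast_sub hK]; push_cast; ring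
      have h8 : (2 : ℝ) ^ (m + 1) - K ≤ δ * 2 ^ (m + 1) := by
        rw [hKk]
        have h9 : (2 : ℝ) ^ (m + 1) - kap q R P * 2 ^ (m + 1) = (1 - kap q R P) * 2 ^ (m + 1) := by
          ring
        rw [h9]
        exact mul_le_mul_of_nonneg_right h5 hn0.le
      refine ⟨2 ^ m + (2 ^ (m + 1) - K), ?_, ?_, ?_⟩
      · rw [h7, hKk]
        simp only [Bool.false_eq_true, if_false]
        rw [pow_succ]
        field_simp
        ring
      · have h9 : (2 : ℝ) ^ (m + 1) - K ≤ 2 ^ m := by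
          refine h8.trans ?_
          rw [← hm]
          have : δ * 2 ^ (m + 1) ≤ 1 / 2 * 2 ^ (m + 1) := mul_le_mul_of_nonneg_right hδ2 hn0.le
          linarith
        have h10 : ((2 ^ m + (2 ^ (m + 1) - K) : ℕ) : ℝ) ≤ ((2 ^ (m + 1) : ℕ) : ℝ) := by
          rw [h7]
          push_cast
          have : (2 : ℝ) ^ (m + 1) = 2 ^ m + 2 ^ m := by rw [pow_succ]; ring
          linarith
        exact_mod_cast h10
      · rw [h7, hm]
        have h9 : (2 : ℝ) ^ m + (2 ^ (m + 1) - K) - 2 ^ m = 2 ^ (m + 1) - K := by ring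
        have h10 : (0 : ℝ) ≤ 2 ^ (m + 1) - K := by
          have : (K : ℝ) ≤ 2 ^ (m + 1) := by exact_mod_cast hK
          linarith
        rw [h9, abs_of_nonneg h10]
        exact h8
  refine ⟨W, hW1, hW2, fun B hB => ?_⟩
  have hcard : (Fintype.card (Fin n → Bool) : ℝ) = 2 ^ n := by
    rw [Fintype.card_fun, Fintype.card_bool, Fintype.card_fin]
    push_cast
    ring
  have h5 := hHWT (Fin n → Bool) (2 ^ 2 ^ r ^ 2) (r + 1) (4 ^ r ^ 2) W δ B hw1 hδ0 hB
    (by rw [hcard]; exact hW3)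
  rw [hcard] at h5
  have hmn : 0 ≤ mn fun h : (Fin n → Bool) → Bool => bi (B h) := by
    unfold mn
    apply div_nonneg _ (by positivity)
    refine Finset.sum_nonneg fun h _ => ?_
    unfold bi
    split_ifs <;> norm_num
  refine le_trans ?_ h5
  have h6 : (1 - (1 / 8 : ℝ) ^ r / 8) * (mn fun h : (Fin n → Bool) → Bool => bi (B h)) ≤
      (1 - (12 * ((4 ^ r ^ 2 : ℕ) : ℝ) * δ + 4 * ((4 ^ r ^ 2 : ℕ) : ℝ) ^ 2 / 2 ^ n) *
        (128 * ((4 ^ r ^ 2 : ℕ) : ℝ)) ^ (r + 1 + 1)) *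
        (mn fun h : (Fin n → Bool) → Bool => bi (B h)) := by
    apply mul_le_mul_of_nonneg_right _ hmn
    linarith
  have h7 : (((2 ^ 2 ^ r ^ 2 : ℕ) : ℝ) + 1) ^ (r + 1 + 1) / 2 ^ 4 ^ r ^ 2 +
      4 * Real.exp (-(2 ^ n * δ ^ 2 / 4)) ≤ (1 / 8) ^ r / (8 * 2 ^ 2 ^ r) := by
    rw [le_div_iff₀ (by positivity)]
    have h8 : (0 : ℝ) < 2 ^ 2 ^ r := by positivity
    linarith
  exact sub_le_sub h6 h7

end Pool.Agent.H3.XQ
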